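import Pool.Agent.TH826.GA.Smooth
set_option autoImplicit false

/-!
Definitions for arrangements of hyperplanes over number fields.
-/

namespace Pool.Agent.Y797.IV

open Pool.Agent.TH826.GA (cm vtx)

section defs

variable {K : Type*} [Field K] {d m : ℕ}

/-- The integer `D` clears the denominators of the vertices of the arrangement. -/
def Clears (c : Fin (m + 1) → Fin (d + 1) → K) (a : Fin (m + 1) → K) (D : K) : Prop :=
  D ≠ 0 ∧ IsIntegral ℤ D ∧ ∀ T : Fin (d + 1) → Fin (m + 1), (cm c T).det ≠ 0 →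
    ∀ j, IsIntegral ℤ (D * vtx c a T j)

/-- The degree of `g ∏_e L_e ^ (w_e + 1)` (or an upper bound of it). -/
noncomputable def degM (g : MvPolynomial (Fin (d + 1)) K) (w : Fin (m + 1) → ℕ) : ℕ :=
  g.totalDegree + ∑ e, (w e + 1)

/-- The forms `L_e = ∑_j c_{e,j} x_j - a_e` are in general position: the linear parts of `d + 1`
different forms are linearly independent, and `d + 2` different forms have no common zero. -/
def GenPos (c : Fin (m + 1) → Fin (d + 1) → K) (a : Fin (m + 1) → K) : Prop :=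
  (∀ T : Fin (d + 1) → Fin (m + 1), Function.Injective T → (cm c T).det ≠ 0) ∧
  ∀ S : Fin (d + 2) → Fin (m + 1), Function.Injective S → ∀ x : Fin (d + 1) → K,
    ∃ i, ∑ j, c (S i) j * x j ≠ a (S i)

/-- The equation `λ ∏_e (∑_j c_{e,j} X_{j+1} - a_e X_0) - X_0^{m+1}` of the projective closure of the
hypersurface `λ ∏_e L_e = 1`. -/
noncomputable def peqn (lam : K) (c : Fin (m + 1) → Fin (d + 1) → K) (a : Fin (m + 1) → K) :
    MvPolynomial (Fin (d + 2)) K :=
  MvPolynomial.C lam * ∏ e, (∑ j, MvPolynomial.C (c e j) * MvPolynomial.X j.succ -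
    MvPolynomial.C (a e) * MvPolynomial.X 0) - MvPolynomial.X 0 ^ (m + 1)

/-- At all complex points `X ≠ 0` of the projective closure of the hypersurface `λ ∏_e L_e = 1`, with
the exception of the points at infinity on which two of the forms vanish, the gradient of the
equation is not `0`. -/
def SmoothClosure (σ : K →+* ℂ) (lam : K) (c : Fin (m + 1) → Fin (d + 1) → K)
    (a : Fin (m + 1) → K) : Prop :=
  ∀ X : Fin (d + 2) → ℂ, X ≠ 0 →
    (X 0 = 0 → ∀ e e', e ≠ e' → ∑ j, σ (c e j) * X j.succ = 0 →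
      ∑ j, σ (c e' j) * X j.succ ≠ 0) →
    MvPolynomial.eval₂ σ X (peqn lam c a) = 0 →
    ∃ i, MvPolynomial.eval₂ σ X (MvPolynomial.pderiv i (peqn lam c a)) ≠ 0

end defs

end Pool.Agent.Y797.IV
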