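import Pool.Agent.Y797.IV.Key
import Pool.Agent.Y797.IV.Def
set_option autoImplicit false

/-!
The hypersurfaces `μ D ^ M g ∏_e L_e ^ (w_e + 1) = 1` of arrangements whose vertices become integral
after multiplication by `D`: the symbols of the bases are unramified.
-/

namespace Pool.Agent.Y797.IV

open scoped WithZero

open Pool.Agent.TH826.MK (KQ symb Unramified unitPart)

open Pool.Agent.TH826.GA (cm vtx al lf ku coe_ku)

open Pool.Agent.TH577.UA

section Unram

variable {K : Type*} [Field K] {d m : ℕ} {lam : K} {g : MvPolynomial (Fin (d + 1)) K}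
  {w : Fin (m + 1) → ℕ} {c : Fin (m + 1) → Fin (d + 1) → K} {a : Fin (m + 1) → K}

variable {L : Type*} [Field L] (f : ARing lam g w c a →+* L)

theorem lL_eq_fx (e : Fin (m + 1)) : lL f e = fx (cL f) (xL f) c a e := by
  unfold lL fx cL xL lf acst
  rw [map_sub, map_sub, map_sum, map_sum]
  simp only [map_mul]
  rfl

theorem val_poly_le_pow (v : Valuation L ℤᵐ⁰) (hg : ∀ k, IsIntegral ℤ (g.coeff k)) {B : ℤᵐ⁰}
    (hB : 1 ≤ B) (hx : ∀ j, v (xL f j) ≤ B) :
    v (f (apol lam g w c a g)) ≤ B ^ g.totalDegree := by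
  have hc : ∀ x : K, IsIntegral ℤ x → v (cL f x) ≤ 1 := fun x hx =>
    Pool.Agent.TH826.MK.val_le_one_of_integral v (map_isIntegral_int _ hx)
  have e : f (apol lam g w c a g) = ∑ k ∈ g.support, cL f (g.coeff k) * ∏ j, xL f j ^ k j := by
    have h1 : f (apol lam g w c a g) = MvPolynomial.eval₂ (cL f) (xL f) g := by
      have h2 : (f.comp (apol lam g w c a)) = MvPolynomial.eval₂Hom (cL f) (xL f) := by
        refine MvPolynomial.ringHom_ext (fun x => ?_) fun j => ?_
        · simp only [MvPolynomial.coe_eval₂Hom, MvPolynomial.eval₂_C]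
          rfl
        · simp only [MvPolynomial.coe_eval₂Hom, MvPolynomial.eval₂_X]
          rfl
      exact congrArg (fun F : MvPolynomial (Fin (d + 1)) K →+* L => F g) h2
    rw [h1, MvPolynomial.eval₂_eq']
  rw [e]
  refine Valuation.map_sum_le v fun k hk => ?_
  rw [map_mul, map_prod]
  have h1 : ∏ j, v (xL f j ^ k j) ≤ B ^ g.totalDegree := by
    calc ∏ j, v (xL f j ^ k j) ≤ ∏ j, B ^ k j := by
          refine Finset.prod_le_prod' fun j _ => ?_
          rw [map_pow]
          exact pow_le_pow_left' (hx j) _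
      _ = B ^ (∑ j, k j) := (Finset.prod_pow_eq_pow_sum _ _ _)
      _ ≤ B ^ g.totalDegree := by
          refine pow_le_pow_right' hB ?_
          have h2 := MvPolynomial.le_totalDegree hk
          rwa [Finsupp.sum_fintype _ _ (fun _ => rfl)] at h2
  calc v (cL f (g.coeff k)) * ∏ j, v (xL f j ^ k j) ≤ 1 * B ^ g.totalDegree :=
        mul_le_mul' (hc _ (hg k)) h1
    _ = B ^ g.totalDegree := one_mul _

/-- The symbols are unramified at all discrete valuations. -/
theorem symb_mem_unitPart (hc : ∀ e j, IsIntegral ℤ (c e j)) (ha : ∀ e, IsIntegral ℤ (a e))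
    (hg : ∀ k, IsIntegral ℤ (g.coeff k)) {D mu : K} (hD : Clears c a D) (hmu : IsIntegral ℤ mu)
    (hlam : lam = mu * D ^ degM g w) (v : Valuation L ℤᵐ⁰) {T : Fin (d + 1) → Fin (m + 1)}
    (hT : (cm c T).det ≠ 0) :
    symb (fun l => Units.map (f : ARing lam g w c a →* L) (aent lam g w c a T l)) ∈
      unitPart v (d + 1) := by
  classical
  obtain ⟨hD0, hDi, hDv⟩ := hD
  have hci : ∀ x : K, IsIntegral ℤ x → v (cL f x) ≤ 1 := fun x hx =>
    Pool.Agent.TH826.MK.val_le_one_of_integral v (map_isIntegral_int _ hx)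
  set z : Fin (d + 1) → Lˣ := fun k => Units.map (f : ARing lam g w c a →* L)
    (Units.map (acst lam g w c a : K →* ARing lam g w c a) (ku (kap c T k)) * au lam g w c a (T k))
    with hz
  set b : Fin (m + 1) → Lˣ := fun e => Units.map (f : ARing lam g w c a →* L) (au lam g w c a e)
    with hb
  have hwv : ∀ e, (b e : L) = fx (cL f) (xL f) c a e := fun e => lL_eq_fx f e
  have hzv : ∀ k, (z k : L) = cL f (kap c T k) * fx (cL f) (xL f) c a (T k) := by
    intro k
    rw [hz, ← lL_eq_fx]
    simp only [map_mul, Units.val_mul]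
    congr 1
    show f (acst lam g w c a (ku (kap c T k) : K)) = _
    rw [coe_ku (kap_ne hT k)]
    rfl
  have hent : ∀ k, Units.map (f : ARing lam g w c a →* L) (aent lam g w c a T k) =
      z k / b (hi c T k) := by
    intro k
    unfold aent pent
    rw [hz, hb]
    simp only [map_mul, map_div]
    rw [mul_div_assoc]
  by_cases hB : ∃ k0, v (fx (cL f) (xL f) c a (hi c T k0) -
      ∑ k ∈ Finset.univ.filter (fun k => hi c T k = hi c T k0),
        cL f (kap c T k) * fx (cL f) (xL f) c a (T k)) <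
      v (cL f (kap c T k0) * fx (cL f) (xL f) c a (T k0))
  · obtain ⟨k0, hk0⟩ := hB
    refine mem_unitPart_of_block v _ (Finset.univ.filter fun k => hi c T k = hi c T k0) z
      (b (hi c T k0)) (fun k hk => ?_) (l := k0)
      (Finset.mem_filter.2 ⟨Finset.mem_univ _, rfl⟩) ?_
    · rw [hent, (Finset.mem_filter.1 hk).2]
    · simp only [hzv, hwv]
      exact hk0
  · push Not at hB
    have hDL : v (cL f D) ≠ 0 := by
      rw [Valuation.ne_zero_iff]
      exact (map_ne_zero _).2 hD0
    have hDle : v (cL f D) ≤ 1 := hci _ hDi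
    set B : ℤᵐ⁰ := (v (cL f D))⁻¹ with hBdef
    have hB0 : B ≠ 0 := inv_ne_zero hDL
    have hB1 : 1 ≤ B := (one_le_inv₀ (zero_lt_iff.2 hDL)).2 hDle
    have hvt : ∀ T' : Fin (d + 1) → Fin (m + 1), (cm c T').det ≠ 0 → ∀ j,
        v (cL f (vtx c a T' j)) ≤ B := by
      intro T' hT' j
      have h1 := hci _ (hDv T' hT' j)
      rw [map_mul, map_mul, mul_comm] at h1
      exact (le_mul_inv_iff₀ (zero_lt_iff.2 hDL)).2 (by simpa using h1) |>.trans_eq (one_mul _)
    have hft : ∀ T' : Fin (d + 1) → Fin (m + 1), (cm c T').det ≠ 0 → ∀ e,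
        v (cL f (∑ j, c e j * vtx c a T' j - a e)) ≤ B := by
      intro T' hT' e
      rw [map_sub, map_sum]
      refine (v.map_sub _ _).trans (max_le ?_ ((hci _ (ha e)).trans hB1))
      refine Valuation.map_sum_le v fun j _ => ?_
      rw [map_mul, map_mul]
      exact (mul_le_mul' (hci _ (hc e j)) (hvt T' hT' j)).trans_eq (one_mul _)
    have hx : ∀ j, v (xL f j) ≤ B := fun j => x_le v hT hB hvt j
    have hle : ∀ e, v (fx (cL f) (xL f) c a e) ≤ B := by
      intro e
      refine (v.map_sub _ _).trans (max_le ?_ ((hci _ (ha e)).trans hB1))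
      refine Valuation.map_sum_le v fun j _ => ?_
      rw [map_mul]
      exact (mul_le_mul' (hci _ (hc e j)) (hx j)).trans_eq (one_mul _)
    have hgv := val_poly_le_pow f v hg hB1 hx
    have hone := congrArg v (prod_lL f)
    simp only [lL_eq_fx] at hone
    have hl2 : cL f lam = cL f mu * cL f D ^ degM g w := by
      rw [← map_pow, ← map_mul]
      exact congrArg (cL f) hlam
    rw [hl2] at hone
    rw [map_mul, map_mul, map_one, map_mul, map_prod, map_pow] at hone
    simp only [map_pow] at hone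
    have hall : ∀ e, v (fx (cL f) (xL f) c a e) = B := by
      intro e
      refine le_antisymm (hle e) ?_
      by_contra hlt
      rw [not_le] at hlt
      have h1 : ∏ e', v (fx (cL f) (xL f) c a e') ^ (w e' + 1) < ∏ e', B ^ (w e' + 1) := by
        rw [← Finset.mul_prod_erase _ _ (Finset.mem_univ e),
          ← Finset.mul_prod_erase _ (fun e' => B ^ (w e' + 1)) (Finset.mem_univ e)]
        have h2 : ∏ x ∈ Finset.univ.erase e, v (fx (cL f) (xL f) c a x) ^ (w x + 1) ≤
            ∏ x ∈ Finset.univ.erase e, B ^ (w x + 1) :=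
          Finset.prod_le_prod' fun j _ => pow_le_pow_left' (hle j) _
        have h3 : v (fx (cL f) (xL f) c a e) ^ (w e + 1) < B ^ (w e + 1) :=
          pow_lt_pow_left₀ hlt zero_le (Nat.succ_ne_zero _)
        have h4 : ∏ x ∈ Finset.univ.erase e, B ^ (w x + 1) ≠ 0 :=
          Finset.prod_ne_zero_iff.2 fun x _ => pow_ne_zero _ hB0
        calc v (fx (cL f) (xL f) c a e) ^ (w e + 1) *
              ∏ x ∈ Finset.univ.erase e, v (fx (cL f) (xL f) c a x) ^ (w x + 1)
            ≤ v (fx (cL f) (xL f) c a e) ^ (w e + 1) *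
              ∏ x ∈ Finset.univ.erase e, B ^ (w x + 1) := mul_le_mul' le_rfl h2
          _ < B ^ (w e + 1) * ∏ x ∈ Finset.univ.erase e, B ^ (w x + 1) :=
              mul_lt_mul_of_pos_right h3 (zero_lt_iff.2 h4)
      rw [Finset.prod_pow_eq_pow_sum] at h1
      have h5 : v (cL f mu) * v (cL f D) ^ degM g w *
          (v (f (apol lam g w c a g)) * ∏ e', v (fx (cL f) (xL f) c a e') ^ (w e' + 1)) < 1 := by
        have hdm : v (cL f D) ^ degM g w * (B ^ g.totalDegree * B ^ (∑ e, (w e + 1))) = 1 := by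
          rw [← pow_add, hBdef]
          unfold degM
          rw [← mul_pow, mul_inv_cancel₀ hDL, one_pow]
        rw [← hdm]
        have hp : 0 < v (cL f D) ^ degM g w := pow_pos (zero_lt_iff.2 hDL) _
        have h6 : v (f (apol lam g w c a g)) * ∏ e', v (fx (cL f) (xL f) c a e') ^ (w e' + 1) <
            B ^ g.totalDegree * B ^ (∑ e, (w e + 1)) := by
          calc v (f (apol lam g w c a g)) * ∏ e', v (fx (cL f) (xL f) c a e') ^ (w e' + 1)
              ≤ B ^ g.totalDegree * ∏ e', v (fx (cL f) (xL f) c a e') ^ (w e' + 1) :=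
                mul_le_mul' hgv le_rfl
            _ < B ^ g.totalDegree * B ^ (∑ e, (w e + 1)) :=
                mul_lt_mul_of_pos_left h1 (pow_pos (zero_lt_iff.2 hB0) _)
        calc v (cL f mu) * v (cL f D) ^ degM g w *
              (v (f (apol lam g w c a g)) * ∏ e', v (fx (cL f) (xL f) c a e') ^ (w e' + 1))
            ≤ 1 * v (cL f D) ^ degM g w *
              (v (f (apol lam g w c a g)) * ∏ e', v (fx (cL f) (xL f) c a e') ^ (w e' + 1)) :=
              mul_le_mul' (mul_le_mul' (hci _ hmu) le_rfl) le_rfl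
          _ = v (cL f D) ^ degM g w *
              (v (f (apol lam g w c a g)) * ∏ e', v (fx (cL f) (xL f) c a e') ^ (w e' + 1)) := by
              rw [one_mul]
          _ < v (cL f D) ^ degM g w * (B ^ g.totalDegree * B ^ (∑ e, (w e + 1))) :=
              mul_lt_mul_of_pos_left h6 hp
      rw [hone] at h5
      exact lt_irrefl _ h5
    refine Submodule.subset_span ⟨_, fun l => ?_, rfl⟩
    rw [hent, Units.val_div_eq_div_val, map_div₀, hzv, hwv, entry_one v hT hB hft hall l,
      div_self]
    rw [hall]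
    exact hB0

theorem symb_mem_unramified (hc : ∀ e j, IsIntegral ℤ (c e j)) (ha : ∀ e, IsIntegral ℤ (a e))
    (hg : ∀ k, IsIntegral ℤ (g.coeff k)) {D mu : K} (hD : Clears c a D) (hmu : IsIntegral ℤ mu)
    (hlam : lam = mu * D ^ degM g w) {T : Fin (d + 1) → Fin (m + 1)} (hT : (cm c T).det ≠ 0) :
    KQ.map (d + 1) f (symb (aent lam g w c a T)) ∈ Unramified L (d + 1) := by
  rw [KQ.map_symb]
  unfold Unramified
  simp only [Submodule.mem_iInf]
  intro v _
  exact symb_mem_unitPart f hc ha hg hD hmu hlam v hT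

/-- There are integers clearing the denominators. -/
theorem exists_clears [NumberField K] (c : Fin (m + 1) → Fin (d + 1) → K)
    (a : Fin (m + 1) → K) : ∃ D : ℕ, Clears c a (D : K) := by
  classical
  have : Algebra.IsAlgebraic ℤ K := by
    have : Algebra.IsAlgebraic ℚ K := inferInstance
    exact (IsFractionRing.comap_isAlgebraic_iff (A := ℤ) (K := ℚ) (C := K)).2 this
  obtain ⟨y, hy0, hy⟩ := Algebra.IsAlgebraic.exists_integral_multiples ℤ
    (Finset.univ.image fun p : (Fin (d + 1) → Fin (m + 1)) × Fin (d + 1) => vtx c a p.1 p.2)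
  have hcast : ((y.natAbs : ℕ) : K) = (y : K) ∨ ((y.natAbs : ℕ) : K) = -(y : K) := by
    rcases Int.natAbs_eq y with h2 | h2
    · exact Or.inl (by conv_rhs => rw [h2, Int.cast_natCast])
    · exact Or.inr (by conv_rhs => rw [h2, Int.cast_neg, Int.cast_natCast, neg_neg])
  refine ⟨y.natAbs, by exact_mod_cast Int.natAbs_ne_zero.2 hy0, isIntegral_natCast _,
    fun T _ j => ?_⟩
  have h1 := hy _ (Finset.mem_image.2 ⟨(T, j), Finset.mem_univ _, rfl⟩)
  rw [zsmul_eq_mul] at h1
  rcases hcast with h2 | h2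
  · rw [h2]
    exact h1
  · rw [h2, neg_mul]
    exact h1.neg

end Unram

end Pool.Agent.Y797.IV
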