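import Pool.Agent.TH577.UA.Final
import Pool.Agent.TH577.UA.Smooth
import Pool.Agent.Y797.IV.Def
set_option autoImplicit false

/-!
Arrangements in general position: the number of the bases of internal activity zero without broken
circuits, and the projective closure of the hypersurface.
-/

namespace Pool.Agent.Y797.IV

open Pool.Agent.TH826.GA (cm vtx al lf lc geqn eval_lf eval_geqn eval_pderiv_prod pderiv_lf)

open Pool.Agent.TH577.UA

section pos

variable {K : Type*} [Field K] {d m : ℕ} {c : Fin (m + 1) → Fin (d + 1) → K}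
  {a : Fin (m + 1) → K}

theorem vtx_spec' {T : Fin (d + 1) → Fin (m + 1)} (hT : (cm c T).det ≠ 0) (i : Fin (d + 1)) :
    ∑ j, c (T i) j * vtx c a T j = a (T i) := by
  rw [Pool.Agent.TH826.GA.eval_vtx]
  simp only [Pool.Agent.TH826.GA.al_T T hT]
  simp

theorem injective_update {T : Fin (d + 1) → Fin (m + 1)} (hT : Function.Injective T)
    {e : Fin (m + 1)} (he : ∀ j, T j ≠ e) (l : Fin (d + 1)) :
    Function.Injective (Function.update T l e) := by
  intro p q hpq
  by_cases hp : p = l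
  · by_cases hq : q = l
    · rw [hp, hq]
    · rw [hp, Function.update_self, Function.update_of_ne hq] at hpq
      exact absurd hpq.symm (he q)
  · by_cases hq : q = l
    · rw [hq, Function.update_self, Function.update_of_ne hp] at hpq
      exact absurd hpq (he p)
    · rw [Function.update_of_ne hp, Function.update_of_ne hq] at hpq
      exact hT hpq

theorem nbc_iff (h : GenPos c a) (T : Fin (d + 1) → Fin (m + 1)) :
    Nbc c a T ↔ StrictMono T ∧ ∀ i, T i ≠ Fin.last m := by
  constructor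
  · rintro ⟨h1, -, h3, -⟩
    refine ⟨h1, fun i => ?_⟩
    obtain ⟨e, he, -⟩ := h3 i
    exact (he.trans_le (Fin.le_last e)).ne
  · rintro ⟨h1, h2⟩
    refine ⟨h1, h.1 T h1.injective, fun i => ⟨Fin.last m, Fin.lt_last_iff_ne_last.2 (h2 i),
      h.1 _ (injective_update h1.injective h2 i)⟩, fun e he hev => ?_⟩
    exfalso
    have hinj : Function.Injective (Fin.cons e T : Fin (d + 2) → Fin (m + 1)) :=
      Fin.cons_injective_iff.2 ⟨by rintro ⟨j, hj⟩; exact he j hj, h1.injective⟩
    obtain ⟨i, hi⟩ := h.2 _ hinj (vtx c a T)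
    rcases Fin.eq_zero_or_eq_succ i with h0 | ⟨l, hl⟩
    · rw [h0] at hi
      exact hi hev
    · rw [hl] at hi
      exact hi (vtx_spec' (h.1 T h1.injective) l)

/-- the bases are the increasing maps to the forms without the last one -/
noncomputable def ixEquiv (h : GenPos c a) : Ix c a ≃ (Fin (d + 1) ↪o Fin m) where
  toFun T := OrderEmbedding.ofStrictMono (fun i => (T.1 i).castPred (((nbc_iff h T.1).1 T.2).2 i))
    fun i j hij => Fin.castPred_lt_castPred_iff.2 (((nbc_iff h T.1).1 T.2).1 hij)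
  invFun F := ⟨fun i => (F i).castSucc, (nbc_iff h _).2 ⟨fun i j hij =>
    Fin.castSucc_lt_castSucc_iff.2 (F.strictMono hij), fun i => Fin.castSucc_ne_last _⟩⟩
  left_inv T := by
    apply Subtype.ext
    funext i
    rfl
  right_inv F := by
    ext i
    rfl

theorem card_ix (h : GenPos c a) : Fintype.card (Ix c a) = m.choose (d + 1) := by
  rw [← Nat.card_eq_fintype_card, Nat.card_congr (ixEquiv h),
    Nat.card_congr (Set.powersetCard.ofFinEmbEquiv (n := d + 1) (I := Fin m)),
    Set.powersetCard.card]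
  simp

end pos

section proj

variable {K : Type*} [Field K] {d m : ℕ} {c : Fin (m + 1) → Fin (d + 1) → K}
  {a : Fin (m + 1) → K}

/-- The linear form of the hyperplane. -/
noncomputable def pf (c : Fin (m + 1) → Fin (d + 1) → K) (a : Fin (m + 1) → K) (e : Fin (m + 1)) :
    MvPolynomial (Fin (d + 2)) K :=
  ∑ j, MvPolynomial.C (c e j) * MvPolynomial.X j.succ - MvPolynomial.C (a e) * MvPolynomial.X 0

/-- the values of the linear forms -/
noncomputable def pv (σ : K →+* ℂ) (c : Fin (m + 1) → Fin (d + 1) → K) (a : Fin (m + 1) → K)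
    (X : Fin (d + 2) → ℂ) (e : Fin (m + 1)) : ℂ := ∑ j, σ (c e j) * X j.succ - σ (a e) * X 0

theorem eval_pf (σ : K →+* ℂ) (X : Fin (d + 2) → ℂ) (e : Fin (m + 1)) :
    MvPolynomial.eval₂ σ X (pf c a e) = pv σ c a X e := by
  unfold pf pv
  rw [MvPolynomial.eval₂_sub, MvPolynomial.eval₂_mul, MvPolynomial.eval₂_C, MvPolynomial.eval₂_X,
    MvPolynomial.eval₂_sum]
  simp only [MvPolynomial.eval₂_mul, MvPolynomial.eval₂_C, MvPolynomial.eval₂_X]

theorem peqn_eq (lam : K) (c : Fin (m + 1) → Fin (d + 1) → K) (a : Fin (m + 1) → K) :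
    peqn lam c a = MvPolynomial.C lam * ∏ e, pf c a e - MvPolynomial.X 0 ^ (m + 1) := rfl

theorem eval_peqn (σ : K →+* ℂ) (lam : K) (X : Fin (d + 2) → ℂ) :
    MvPolynomial.eval₂ σ X (peqn lam c a) = σ lam * ∏ e, pv σ c a X e - X 0 ^ (m + 1) := by
  rw [peqn_eq, MvPolynomial.eval₂_sub, MvPolynomial.eval₂_mul, MvPolynomial.eval₂_C,
    MvPolynomial.eval₂_pow, MvPolynomial.eval₂_X, MvPolynomial.eval₂_prod]
  simp only [eval_pf]

theorem pderiv_pf (j : Fin (d + 1)) (e : Fin (m + 1)) :
    MvPolynomial.pderiv j.succ (pf c a e) = MvPolynomial.C (c e j) := by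
  unfold pf
  rw [map_sub, MvPolynomial.pderiv_C_mul,
    MvPolynomial.pderiv_X_of_ne (Fin.succ_ne_zero j).symm, map_sum, Finset.sum_eq_single j]
  · simp
  · intro l _ hl
    rw [MvPolynomial.pderiv_C_mul, MvPolynomial.pderiv_X_of_ne
      (fun h => hl (Fin.succ_injective _ h))]
    simp
  · intro h
    exact absurd (Finset.mem_univ j) h

theorem pderiv_pow_zero (j : Fin (d + 1)) :
    MvPolynomial.pderiv j.succ (MvPolynomial.X 0 ^ (m + 1) : MvPolynomial (Fin (d + 2)) K) = 0 := by
  rw [Derivation.leibniz_pow, MvPolynomial.pderiv_X_of_ne (Fin.succ_ne_zero j).symm]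
  simp

theorem eval_pderiv_prod_one {ι : Type*} [DecidableEq ι] (σ : K →+* ℂ) (x : Fin (d + 1) → ℂ)
    (j : Fin (d + 1)) (f : ι → MvPolynomial (Fin (d + 1)) K) (s : Finset ι) {e : ι} (he : e ∈ s)
    (h : MvPolynomial.eval₂ σ x (f e) = 0) :
    MvPolynomial.eval₂ σ x (MvPolynomial.pderiv j (∏ e ∈ s, f e)) =
      MvPolynomial.eval₂ σ x (MvPolynomial.pderiv j (f e)) *
        ∏ i ∈ s.erase e, MvPolynomial.eval₂ σ x (f i) := by
  rw [← Finset.mul_prod_erase s f he, Derivation.leibniz]
  simp only [smul_eq_mul]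
  rw [MvPolynomial.eval₂_add, MvPolynomial.eval₂_mul, MvPolynomial.eval₂_mul,
    MvPolynomial.eval₂_prod, h]
  ring

theorem smoothClosure {σ : K →+* ℂ} {lam : K} (hlam : lam ≠ 0)
    (hc : ∀ e, ∃ j, c e j ≠ 0)
    (haff : ∀ x : Fin (d + 1) → ℂ, MvPolynomial.eval₂ σ x (geqn lam c a) = 0 →
      ∃ j, MvPolynomial.eval₂ σ x (MvPolynomial.pderiv j (geqn lam c a)) ≠ 0) :
    SmoothClosure σ lam c a := by
  classical
  intro X hX hinf h0
  have hsl : σ lam ≠ 0 := (map_ne_zero _).2 hlam
  rw [eval_peqn, sub_eq_zero] at h0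
  have hpd : ∀ j : Fin (d + 1), MvPolynomial.pderiv j.succ (peqn lam c a) =
      MvPolynomial.C lam * MvPolynomial.pderiv j.succ (∏ e, pf c a e) := by
    intro j
    rw [peqn_eq, map_sub, pderiv_pow_zero, sub_zero, MvPolynomial.pderiv_C_mul]
  by_cases hX0 : X 0 = 0
  · rw [hX0, zero_pow (Nat.succ_ne_zero m), mul_eq_zero, or_iff_right hsl,
      Finset.prod_eq_zero_iff] at h0
    obtain ⟨e, -, he⟩ := h0
    obtain ⟨j, hj⟩ := hc e
    refine ⟨j.succ, ?_⟩
    rw [hpd, MvPolynomial.eval₂_mul, MvPolynomial.eval₂_C,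
      eval_pderiv_prod_one σ X j.succ _ _ (Finset.mem_univ e) (by rw [eval_pf]; exact he),
      pderiv_pf, MvPolynomial.eval₂_C]
    refine mul_ne_zero hsl (mul_ne_zero ((map_ne_zero _).2 hj)
      (Finset.prod_ne_zero_iff.2 fun e' he' => ?_))
    rw [eval_pf]
    have h1 := hinf hX0 e e' (Finset.ne_of_mem_erase he').symm
    unfold pv at he ⊢
    rw [hX0, mul_zero, sub_zero] at he ⊢
    exact h1 he
  · set x : Fin (d + 1) → ℂ := fun j => X j.succ / X 0 with hx
    have hpv : ∀ e, pv σ c a X e = X 0 * lc σ c a x e := by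
      intro e
      unfold pv lc
      rw [mul_sub, Finset.mul_sum, mul_comm (σ (a e))]
      congr 1
      refine Finset.sum_congr rfl fun j _ => ?_
      rw [hx]
      field_simp
    have h1 : σ lam * ∏ e, lc σ c a x e = 1 := by
      simp only [hpv, Finset.prod_mul_distrib, Finset.prod_const, Finset.card_univ,
        Fintype.card_fin] at h0
      have h2 : X 0 ^ (m + 1) ≠ 0 := pow_ne_zero _ hX0
      have h3 : X 0 ^ (m + 1) * (σ lam * ∏ e, lc σ c a x e) = X 0 ^ (m + 1) * 1 := by
        linear_combination h0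
      exact mul_left_cancel₀ h2 h3
    have hu : ∀ e, lc σ c a x e ≠ 0 := fun e h => by
      have h2 : ∏ e, lc σ c a x e = 0 := Finset.prod_eq_zero (Finset.mem_univ e) h
      rw [h2, mul_zero] at h1
      exact zero_ne_one h1
    obtain ⟨j, hj⟩ := haff x (by rw [eval_geqn, h1, sub_self])
    refine ⟨j.succ, ?_⟩
    rw [hpd, MvPolynomial.eval₂_mul, MvPolynomial.eval₂_C,
      eval_pderiv_prod σ X j.succ _ _ (fun e _ => by
        rw [eval_pf, hpv]; exact mul_ne_zero hX0 (hu e))]
    unfold geqn at hj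
    rw [map_sub, MvPolynomial.pderiv_one, sub_zero, MvPolynomial.pderiv_C_mul,
      MvPolynomial.eval₂_mul, MvPolynomial.eval₂_C,
      eval_pderiv_prod σ x j _ _ (fun e _ => by rw [eval_lf]; exact hu e)] at hj
    simp only [pderiv_lf, MvPolynomial.eval₂_C, eval_lf, MvPolynomial.eval₂_prod] at hj
    simp only [pderiv_pf, MvPolynomial.eval₂_C, eval_pf, MvPolynomial.eval₂_prod, hpv, mul_inv]
    have e1 : ∑ e, σ (c e j) * ((X 0)⁻¹ * (lc σ c a x e)⁻¹) =
        (X 0)⁻¹ * ∑ e, σ (c e j) * (lc σ c a x e)⁻¹ := by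
      rw [Finset.mul_sum]
      exact Finset.sum_congr rfl fun e _ => by ring
    rw [e1]
    refine mul_ne_zero hsl (mul_ne_zero (mul_ne_zero (inv_ne_zero hX0) ?_)
      (Finset.prod_ne_zero_iff.2 fun e _ => mul_ne_zero hX0 (hu e)))
    intro h
    rw [h] at hj
    simp at hj

/-- the equation without multiplicities -/
theorem aeqn_one (lam : K) (c : Fin (m + 1) → Fin (d + 1) → K) (a : Fin (m + 1) → K) :
    aeqn lam 1 (fun _ => 0) c a = geqn lam c a := by
  unfold aeqn geqn
  simp

/-- two different lines in general position have different points at infinity -/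
theorem two_forms {c : Fin (m + 1) → Fin (1 + 1) → K} {a : Fin (m + 1) → K} (h : GenPos c a)
    (σ : K →+* ℂ) {X : Fin (1 + 1) → ℂ} (hX : X ≠ 0) {e e' : Fin (m + 1)} (hee : e ≠ e')
    (h1 : ∑ j, σ (c e j) * X j = 0) : ∑ j, σ (c e' j) * X j ≠ 0 := by
  intro h2
  have hinj : Function.Injective (![e, e'] : Fin (1 + 1) → Fin (m + 1)) := by
    intro i j hij
    fin_cases i <;> fin_cases j <;> simp_all
  have hdet := h.1 _ hinj
  have hd : (cm c ![e, e']).det = c e 0 * c e' 1 - c e 1 * c e' 0 := by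
    have := Matrix.det_fin_two (cm c ![e, e'])
    rw [this]
    rfl
  rw [hd] at hdet
  have hs : σ (c e 0) * σ (c e' 1) - σ (c e 1) * σ (c e' 0) ≠ 0 := by
    rw [← map_mul, ← map_mul, ← map_sub]
    exact (map_ne_zero _).2 hdet
  rw [Fin.sum_univ_two] at h1 h2
  have e0 : (σ (c e 0) * σ (c e' 1) - σ (c e 1) * σ (c e' 0)) * X 0 = 0 := by
    linear_combination σ (c e' 1) * h1 - σ (c e 1) * h2
  have e1 : (σ (c e 0) * σ (c e' 1) - σ (c e 1) * σ (c e' 0)) * X 1 = 0 := by
    linear_combination σ (c e 0) * h2 - σ (c e' 0) * h1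
  apply hX
  funext i
  fin_cases i
  · exact (mul_eq_zero.1 e0).resolve_left hs
  · exact (mul_eq_zero.1 e1).resolve_left hs

/-- the forms in general position are not constant -/
theorem row_ne (h : GenPos c a) (hR : ∃ T : Fin (d + 1) → Fin (m + 1), (cm c T).det ≠ 0)
    (e : Fin (m + 1)) : ∃ j, c e j ≠ 0 := by
  classical
  obtain ⟨T, hT⟩ := hR
  have hTi : Function.Injective T := by
    intro i j hij
    by_contra hne
    exact hT (Matrix.det_zero_of_row_eq hne (by
      funext l
      show c (T i) l = c (T j) l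
      rw [hij]))
  have key : ∃ T' : Fin (d + 1) → Fin (m + 1), Function.Injective T' ∧ ∃ i, T' i = e := by
    by_cases he : ∃ i, T i = e
    · exact ⟨T, hTi, he⟩
    · push Not at he
      exact ⟨_, injective_update hTi he 0, 0, Function.update_self _ _ _⟩
  obtain ⟨T', hT', i, rfl⟩ := key
  by_contra hcon
  push Not at hcon
  exact h.1 T' hT' (Matrix.det_eq_zero_of_row_eq_zero i fun j => hcon j)

end proj

end Pool.Agent.Y797.IV
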