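import Pool.Agent.Y797.IV.Key
set_option autoImplicit false

/-!
Simplices of arrangements of hyperplanes in general position: bounds of the coordinates by the
vertices.
-/

namespace Pool.Agent.Y797.IV

open scoped WithZero

open Pool.Agent.TH826.GA (cm vtx gam sum_gam const_ne injective_face)

section sim

variable {K : Type*} [Field K] {d m : ℕ} {c : Fin (m + 1) → Fin (d + 1) → K}
  {a : Fin (m + 1) → K} {L : Type*} [Field L] (φ : K →+* L) (x : Fin (d + 1) → L)

/-- the vertex opposite to the facet `k` -/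
noncomputable def opp (c : Fin (m + 1) → Fin (d + 1) → K) (a : Fin (m + 1) → K)
    (S : Fin (d + 2) → Fin (m + 1)) (k : Fin (d + 2)) : Fin (d + 1) → K :=
  vtx c a fun p => S (k.succAbove p)

theorem opp_ne (hdet : ∀ T : Fin (d + 1) → Fin (m + 1), Function.Injective T → (cm c T).det ≠ 0)
    {S : Fin (d + 2) → Fin (m + 1)} (hS : Function.Injective S) {i k : Fin (d + 2)}
    (hik : i ≠ k) : ∑ j, c (S i) j * opp c a S k j = a (S i) := by
  obtain ⟨p, hp⟩ := Fin.exists_succAbove_eq hik
  have h := vtx_spec (a := a) (hdet _ (injective_face hS k)) p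
  simp only [hp] at h
  exact h

theorem opp_self (hdet : ∀ T : Fin (d + 1) → Fin (m + 1), Function.Injective T →
    (cm c T).det ≠ 0) {S : Fin (d + 2) → Fin (m + 1)} (hS : Function.Injective S)
    (k : Fin (d + 2)) : gam c S k * (∑ j, c (S k) j * opp c a S k j - a (S k)) =
      - ∑ i, gam c S i * a (S i) := by
  have h1 : ∑ i, gam c S i * (∑ j, c (S i) j * opp c a S k j) = 0 := by
    simp only [Finset.mul_sum, ← mul_assoc]
    rw [Finset.sum_comm]
    simp only [← Finset.sum_mul, sum_gam, zero_mul, Finset.sum_const_zero]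
  rw [← Finset.add_sum_erase _ _ (Finset.mem_univ k)] at h1 ⊢
  have h2 : ∑ i ∈ Finset.univ.erase k, gam c S i * (∑ j, c (S i) j * opp c a S k j) =
      ∑ i ∈ Finset.univ.erase k, gam c S i * a (S i) :=
    Finset.sum_congr rfl fun i hi => by rw [opp_ne hdet hS (Finset.ne_of_mem_erase hi)]
  rw [h2] at h1
  linear_combination h1

theorem sum_gx (S : Fin (d + 2) → Fin (m + 1)) :
    ∑ i, φ (gam c S i) * fx φ x c a (S i) = - φ (∑ i, gam c S i * a (S i)) := by
  have h1 : ∀ i, φ (gam c S i) * fx φ x c a (S i) =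
      ∑ j, φ (gam c S i * c (S i) j) * x j - φ (gam c S i * a (S i)) := by
    intro i
    unfold fx
    rw [mul_sub, Finset.mul_sum]
    simp only [map_mul, mul_assoc]
  simp only [h1, Finset.sum_sub_distrib]
  rw [Finset.sum_comm, map_sum]
  have h2 : ∀ j, ∑ i, φ (gam c S i * c (S i) j) * x j = 0 := by
    intro j
    rw [← Finset.sum_mul, ← map_sum, sum_gam, map_zero, zero_mul]
  simp only [h2, Finset.sum_const_zero, zero_sub]

/-- The point is the combination of the vertices of the simplex. -/
theorem bary (hdet : ∀ T : Fin (d + 1) → Fin (m + 1), Function.Injective T → (cm c T).det ≠ 0)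
    {S : Fin (d + 2) → Fin (m + 1)} (hS : Function.Injective S) (j : Fin (d + 1)) :
    φ (∑ i, gam c S i * a (S i)) * x j =
      - ∑ k, φ (gam c S k) * fx φ x c a (S k) * φ (opp c a S k j) := by
  set δ : K := ∑ i, gam c S i * a (S i) with hδ
  set w : Fin (d + 1) → L := fun j => φ δ * x j +
    ∑ k, φ (gam c S k) * fx φ x c a (S k) * φ (opp c a S k j) with hw
  have h1 : ∀ i, ∑ j, φ (c (S i) j) * w j = 0 := by
    intro i
    have e1 : ∑ j, φ (c (S i) j) * w j = φ δ * (fx φ x c a (S i) + φ (a (S i))) +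
        ∑ k, φ (gam c S k) * fx φ x c a (S k) * φ (∑ j, c (S i) j * opp c a S k j) := by
      rw [hw]
      unfold fx
      simp only [mul_add, Finset.sum_add_distrib, Finset.mul_sum, map_sum, map_mul, sub_add_cancel]
      congr 1
      · exact Finset.sum_congr rfl fun j _ => by ring
      · rw [Finset.sum_comm]
        refine Finset.sum_congr rfl fun k _ => Finset.sum_congr rfl fun j _ => by ring
    have e2 : ∑ k, φ (gam c S k) * fx φ x c a (S k) * φ (∑ j, c (S i) j * opp c a S k j) =
        (∑ k, φ (gam c S k) * fx φ x c a (S k)) * φ (a (S i)) - φ δ * fx φ x c a (S i) := by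
      have h4 : ∑ k ∈ Finset.univ.erase i, φ (gam c S k) * fx φ x c a (S k) *
          φ (∑ j, c (S i) j * opp c a S k j) =
          (∑ k ∈ Finset.univ.erase i, φ (gam c S k) * fx φ x c a (S k)) * φ (a (S i)) := by
        rw [Finset.sum_mul]
        refine Finset.sum_congr rfl fun k hk => ?_
        rw [opp_ne hdet hS (Finset.ne_of_mem_erase hk).symm]
      rw [← Finset.add_sum_erase _ _ (Finset.mem_univ i), h4,
        ← Finset.add_sum_erase _ (fun k => φ (gam c S k) * fx φ x c a (S k)) (Finset.mem_univ i)]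
      have h3 := congrArg φ (opp_self (a := a) hdet hS i)
      rw [map_mul, map_sub, map_neg] at h3
      linear_combination fx φ x c a (S i) * h3
    rw [e1, e2, sum_gx]
    ring
  have hT := hdet _ (injective_face hS 0)
  set T : Fin (d + 1) → Fin (m + 1) := fun p => S ((0 : Fin (d + 2)).succAbove p) with hTdef
  have h2 : w j = 0 := by
    have h3 : ∀ l, ∑ i, (cm c T)⁻¹ j i * cm c T i l = if j = l then 1 else 0 := by
      intro l
      have h4 := congrFun (congrFun (Matrix.nonsing_inv_mul (cm c T)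
        (isUnit_iff_ne_zero.2 hT)) j) l
      rwa [Matrix.mul_apply, Matrix.one_apply] at h4
    have h5 : w j = ∑ i, φ ((cm c T)⁻¹ j i) * ∑ l, φ (c (T i) l) * w l := by
      simp only [Finset.mul_sum, ← mul_assoc, ← map_mul]
      rw [Finset.sum_comm]
      simp only [← Finset.sum_mul, ← map_sum]
      have h6 : ∀ l, ∑ i, (cm c T)⁻¹ j i * c (T i) l = if j = l then 1 else 0 := h3
      simp only [h6]
      simp [apply_ite φ]
    rw [h5]
    exact Finset.sum_eq_zero fun i _ => by
      have h7 : ∑ l, φ (c (T i) l) * w l = 0 := h1 _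
      rw [h7, mul_zero]
  have h8 : φ δ * x j + ∑ k, φ (gam c S k) * fx φ x c a (S k) * φ (opp c a S k j) = 0 := h2
  linear_combination h8

variable {φ x}

/-- The coordinates are bounded by the vertices, if none of the barycentric coordinates is large. -/
theorem simplex_x_le (v : Valuation L ℤᵐ⁰)
    (hdet : ∀ T : Fin (d + 1) → Fin (m + 1), Function.Injective T → (cm c T).det ≠ 0)
    (hgen : ∀ S : Fin (d + 2) → Fin (m + 1), Function.Injective S → ∀ x : Fin (d + 1) → K,
      ∃ i, ∑ j, c (S i) j * x j ≠ a (S i))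
    {S : Fin (d + 2) → Fin (m + 1)} (hS : Function.Injective S)
    (hle : ∀ k, v (φ (gam c S k) * fx φ x c a (S k)) ≤ v (φ (∑ i, gam c S i * a (S i))))
    {B : ℤᵐ⁰} (hB : ∀ T', (cm c T').det ≠ 0 → ∀ j, v (φ (vtx c a T' j)) ≤ B) (j : Fin (d + 1)) :
    v (x j) ≤ B := by
  have hδ : φ (∑ i, gam c S i * a (S i)) ≠ 0 := (map_ne_zero _).2 (const_ne hdet hgen hS)
  have hv0 : 0 < v (φ (∑ i, gam c S i * a (S i))) := by
    rw [Valuation.pos_iff]
    exact hδ
  have h1 := congrArg v (bary φ x (a := a) hdet hS j)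
  rw [map_mul, Valuation.map_neg] at h1
  have h2 : v (∑ k, φ (gam c S k) * fx φ x c a (S k) * φ (opp c a S k j)) ≤
      v (φ (∑ i, gam c S i * a (S i))) * B := by
    refine Valuation.map_sum_le v fun k _ => ?_
    rw [map_mul]
    exact mul_le_mul' (hle k) (hB _ (hdet _ (injective_face hS k)) j)
  rw [← h1] at h2
  exact le_of_mul_le_mul_left h2 hv0

/-- If none of the barycentric coordinates is large and the forms have the maximal value, all the
barycentric coordinates are units. -/
theorem simplex_val (v : Valuation L ℤᵐ⁰)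
    (hdet : ∀ T : Fin (d + 1) → Fin (m + 1), Function.Injective T → (cm c T).det ≠ 0)
    {S : Fin (d + 2) → Fin (m + 1)} (hS : Function.Injective S)
    (hle : ∀ k, v (φ (gam c S k) * fx φ x c a (S k)) ≤ v (φ (∑ i, gam c S i * a (S i))))
    {B : ℤᵐ⁰} (hB : ∀ T', (cm c T').det ≠ 0 → ∀ e, v (φ (∑ j, c e j * vtx c a T' j - a e)) ≤ B)
    (hall : ∀ e, v (fx φ x c a e) = B) (k : Fin (d + 2)) :
    v (φ (gam c S k) * fx φ x c a (S k)) = v (φ (∑ i, gam c S i * a (S i))) := by
  refine le_antisymm (hle k) ?_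
  have h1 := congrArg (fun y => v (φ y)) (opp_self (a := a) hdet hS k)
  simp only [map_mul, map_neg, Valuation.map_neg] at h1
  rw [← h1, map_mul, hall]
  exact mul_le_mul' le_rfl (hB _ (hdet _ (injective_face hS k)) _)

end sim

end Pool.Agent.Y797.IV
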