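import Pool.Agent.TH577.UA.Mil
set_option autoImplicit false

/-!
Symbols in the unit part: a block of the entries whose combination is small compared with one of
them.
-/

namespace Pool.Agent.Y797.IV

open scoped WithZero

open Pool.Agent.TH826.MK

open Pool.Agent.TH826.SX

open Pool.Agent.TH577.UA (mem_unitPart_of_sum_on symb_div_on)

section Milnor

variable {L : Type*} [Field L] {n : ℕ}

/-- If the entries on `J` are `z_k / z_0`, and `z_0 - ∑_{k ∈ J} z_k` is smaller than one of the
`z_k`, then the symbol lies in the unit part. -/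
theorem mem_unitPart_of_block (v : Valuation L ℤᵐ⁰) (a : Fin n → Lˣ) (J : Finset (Fin n))
    (z : Fin n → Lˣ) (z0 : Lˣ) (ha : ∀ k ∈ J, a k = z k / z0) {l : Fin n} (hl : l ∈ J)
    (hsum : v ((z0 : L) - ∑ k ∈ J, (z k : L)) < v (z l : L)) : symb a ∈ unitPart v n := by
  classical
  have hdiv : ∀ x y : Lˣ, ((x / y : Lˣ) : L) = (x : L) / (y : L) := fun x y =>
    Units.val_div_eq_div_val _ _
  obtain ⟨k0, hk0, hmax⟩ := Finset.exists_max_image J (fun k => v (z k : L)) ⟨l, hl⟩
  have hk0big : v ((z0 : L) - ∑ k ∈ J, (z k : L)) < v (z k0 : L) := hsum.trans_le (hmax l hl)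
  rcases lt_or_ge (v (z k0 : L)) (v (z0 : L)) with hc | hc
  · -- the largest is `z_0`
    have h0big : v ((z0 : L) - ∑ k ∈ J, (z k : L)) < v (z0 : L) := hk0big.trans hc
    have h00 : 0 < v (z0 : L) := zero_le.trans_lt h0big
    rw [← symb_neg_on a J]
    refine mem_unitPart_of_sum_on v _ J (fun k hk => ?_) ?_
    · rw [if_pos hk, Units.val_neg, Valuation.map_neg, ha k hk, hdiv, map_div₀, div_le_one₀ h00]
      exact (hmax k hk).trans hc.le
    · have e : 1 + ∑ k ∈ J, ((if k ∈ J then -a k else a k : Lˣ) : L) =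
          ((z0 : L) - ∑ k ∈ J, (z k : L)) / z0 := by
        rw [Finset.sum_congr rfl fun k hk => by rw [if_pos hk, Units.val_neg, ha k hk, hdiv],
          Finset.sum_neg_distrib, ← Finset.sum_div, sub_div, div_self z0.ne_zero]
        ring
      rw [e, map_div₀, div_lt_one₀ h00]
      exact h0big
  · have h00 : 0 < v (z k0 : L) := zero_le.trans_lt hk0big
    rw [← symb_div_on a k0 (J.erase k0) (Finset.notMem_erase k0 _)]
    set b : Fin n → Lˣ := fun k => if k ∈ J.erase k0 then a k / a k0 else a k with hb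
    have hbk0 : b k0 = a k0 := by simp [hb]
    have h1 : symb b = - symb (Function.update b k0 (-(a k0)⁻¹)) := by
      rw [symb_upd_neg, symb_upd_inv, neg_neg, ← hbk0, Function.update_eq_self]
    rw [h1]
    refine Submodule.neg_mem _ ?_
    have hz : ∀ k ∈ J.erase k0, ((Function.update b k0 (-(a k0)⁻¹) k : Lˣ) : L) =
        (z k : L) / z k0 := by
      intro k hk
      have hkJ := Finset.mem_of_mem_erase hk
      rw [Function.update_of_ne (Finset.ne_of_mem_erase hk), hb]
      simp only [if_pos hk]
      rw [ha k hkJ, ha k0 hk0, hdiv, hdiv, hdiv]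
      have := z0.ne_zero
      have := (z k0).ne_zero
      field_simp
    have hz0 : ((Function.update b k0 (-(a k0)⁻¹) k0 : Lˣ) : L) = - ((z0 : L) / z k0) := by
      rw [Function.update_self, Units.val_neg, Units.val_inv_eq_inv_val, ha k0 hk0, hdiv, inv_div]
    refine mem_unitPart_of_sum_on v _ J (fun k hk => ?_) ?_
    · by_cases hkk : k = k0
      · rw [hkk, hz0, Valuation.map_neg, map_div₀, div_le_one₀ h00]
        exact hc
      · rw [hz k (Finset.mem_erase.2 ⟨hkk, hk⟩), map_div₀, div_le_one₀ h00]
        exact hmax k hk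
    · rw [← Finset.add_sum_erase J _ hk0, hz0, Finset.sum_congr rfl hz, ← Finset.sum_div]
      have e : (1 : L) + (-((z0 : L) / z k0) + (∑ k ∈ J.erase k0, (z k : L)) / z k0) =
          -(((z0 : L) - ∑ k ∈ J, (z k : L)) / z k0) := by
        rw [← Finset.add_sum_erase J _ hk0]
        have := (z k0).ne_zero
        field_simp
        ring
      rw [e, Valuation.map_neg, map_div₀, div_lt_one₀ h00]
      exact hk0big

end Milnor

end Pool.Agent.Y797.IV
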