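import Pool.Agent.Y797.IV.Blk
import Pool.Agent.TH577.UA.Alg
set_option autoImplicit false

/-!
Arrangements of hyperplanes with integral vertices: bounds at points which are combinations of the
vertices.
-/

namespace Pool.Agent.Y797.IV

open scoped WithZero

open Pool.Agent.TH826.GA (cm vtx al)

open Pool.Agent.TH577.UA (hi kap kap_eq kap_ne det_update le_hi_of_al)

section lin

variable {K : Type*} [Field K] {d m : ℕ} {c : Fin (m + 1) → Fin (d + 1) → K}
  {a : Fin (m + 1) → K}

/-- the value at `y` of the affine function with the coefficients `u`, `β` -/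
def ev {K L : Type*} [CommRing K] [CommRing L] {d : ℕ} (φ : K →+* L) (u : Fin (d + 1) → K) (β : K)
    (y : Fin (d + 1) → L) : L := ∑ j, φ (u j) * y j + φ β

theorem al_def (T : Fin (d + 1) → Fin (m + 1)) (e : Fin (m + 1)) (l : Fin (d + 1)) :
    al c T e l = ∑ j, c e j * (cm c T)⁻¹ j l := rfl

/-- the vertex is determined by its equations -/
theorem eq_vtx {T : Fin (d + 1) → Fin (m + 1)} (hT : (cm c T).det ≠ 0) {y : Fin (d + 1) → K}
    (h : ∀ i, ∑ j, c (T i) j * y j = a (T i)) : y = vtx c a T := by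
  funext j
  unfold vtx
  have h1 : ∀ i, a (T i) = ∑ l, cm c T i l * y l := fun i => (h i).symm
  simp only [h1, Finset.mul_sum, ← mul_assoc]
  rw [Finset.sum_comm]
  simp only [← Finset.sum_mul]
  have h2 : ∀ l, ∑ i, (cm c T)⁻¹ j i * cm c T i l = if j = l then 1 else 0 := by
    intro l
    have h3 := congrFun (congrFun (Matrix.nonsing_inv_mul (cm c T)
      (isUnit_iff_ne_zero.2 hT)) j) l
    rwa [Matrix.mul_apply, Matrix.one_apply] at h3
  simp only [h2]
  simp

theorem vtx_spec {T : Fin (d + 1) → Fin (m + 1)} (hT : (cm c T).det ≠ 0) (i : Fin (d + 1)) :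
    ∑ j, c (T i) j * vtx c a T j = a (T i) := by
  rw [Pool.Agent.TH826.GA.eval_vtx]
  simp only [Pool.Agent.TH826.GA.al_T T hT]
  simp

/-- The forms `T'` are linearly independent, and for all `k` with `hi k < h` the vectors dual to
`T k` are dual to `T' k`. -/
def Reach (c : Fin (m + 1) → Fin (d + 1) → K) (T : Fin (d + 1) → Fin (m + 1)) (h : ℕ)
    (T' : Fin (d + 1) → Fin (m + 1)) : Prop :=
  (cm c T').det ≠ 0 ∧ ∀ k, ((hi c T k : Fin (m + 1)) : ℕ) < h → ∀ i,
    al c T (T' i) k = if i = k then 1 else 0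

theorem reach_self {T : Fin (d + 1) → Fin (m + 1)} (hT : (cm c T).det ≠ 0) (h : ℕ) :
    Reach c T h T :=
  ⟨hT, fun k _ i => Pool.Agent.TH826.GA.al_T T hT i k⟩

theorem Reach.mono {T T' : Fin (d + 1) → Fin (m + 1)} {h h' : ℕ} (hh : h' ≤ h)
    (H : Reach c T h T') : Reach c T h' T' :=
  ⟨H.1, fun k hk i => H.2 k (hk.trans_le hh) i⟩

theorem col_eq {T T' : Fin (d + 1) → Fin (m + 1)} (hT' : (cm c T').det ≠ 0) {k : Fin (d + 1)}
    (h : ∀ i, al c T (T' i) k = if i = k then 1 else 0) (j : Fin (d + 1)) :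
    (cm c T)⁻¹ j k = (cm c T')⁻¹ j k := by
  have h1 : ∀ i, ∑ l, cm c T' i l * (cm c T)⁻¹ l k = if i = k then 1 else 0 := h
  have h2 : ∀ i l, ∑ p, (cm c T')⁻¹ i p * cm c T' p l = if i = l then 1 else 0 := by
    intro i l
    have h3 := congrFun (congrFun (Matrix.nonsing_inv_mul (cm c T')
      (isUnit_iff_ne_zero.2 hT')) i) l
    rwa [Matrix.mul_apply, Matrix.one_apply] at h3
  calc (cm c T)⁻¹ j k = ∑ l, (∑ p, (cm c T')⁻¹ j p * cm c T' p l) * (cm c T)⁻¹ l k := by
        simp only [h2]
        simp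
    _ = ∑ p, (cm c T')⁻¹ j p * ∑ l, cm c T' p l * (cm c T)⁻¹ l k := by
        simp only [Finset.sum_mul, Finset.mul_sum, mul_assoc]
        rw [Finset.sum_comm]
    _ = (cm c T')⁻¹ j k := by
        simp only [h1]
        simp

theorem reach_step {T T' : Fin (d + 1) → Fin (m + 1)} (hT : (cm c T).det ≠ 0) {h : ℕ}
    (H : Reach c T (h + 1) T') {k : Fin (d + 1)} (hk : ((hi c T k : Fin (m + 1)) : ℕ) = h) :
    Reach c T h (Function.update T' k (hi c T k)) := by
  have hcol := col_eq H.1 (H.2 k (by omega))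
  refine ⟨?_, fun k' hk' i => ?_⟩
  · rw [det_update H.1]
    refine mul_ne_zero ?_ H.1
    have e : al c T' (hi c T k) k = al c T (hi c T k) k := by
      rw [al_def, al_def]
      exact Finset.sum_congr rfl fun j _ => by rw [hcol j]
    rw [e, ← kap_eq hT]
    exact kap_ne hT k
  · by_cases hik : i = k
    · rw [hik, Function.update_self]
      have hne : k ≠ k' := by
        rintro rfl
        omega
      rw [if_neg hne]
      by_contra h0
      have h1 : (hi c T k : Fin (m + 1)) ≤ hi c T k' := le_hi_of_al hT h0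
      have h2 : ((hi c T k : Fin (m + 1)) : ℕ) ≤ (hi c T k' : Fin (m + 1)) := h1
      omega
    · rw [Function.update_of_ne hik]
      exact H.2 k' (by omega) i

theorem vtx_step {T T' : Fin (d + 1) → Fin (m + 1)} (hT : (cm c T).det ≠ 0) {h : ℕ}
    (H : Reach c T (h + 1) T') {k : Fin (d + 1)} (hk : ((hi c T k : Fin (m + 1)) : ℕ) = h)
    (j : Fin (d + 1)) : vtx c a (Function.update T' k (hi c T k)) j =
      vtx c a T' j - (∑ l, c (hi c T k) l * vtx c a T' l - a (hi c T k)) / kap c T k *
        (cm c T)⁻¹ j k := by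
  have H2 := reach_step hT H hk
  set s : K := (∑ l, c (hi c T k) l * vtx c a T' l - a (hi c T k)) / kap c T k with hs
  refine (congrFun (eq_vtx H2.1 (y := fun j => vtx c a T' j - s * (cm c T)⁻¹ j k) ?_) j).symm
  intro i
  have h1 : ∀ e, ∑ j, c e j * (vtx c a T' j - s * (cm c T)⁻¹ j k) =
      ∑ j, c e j * vtx c a T' j - s * al c T e k := by
    intro e
    rw [al_def, Finset.mul_sum, ← Finset.sum_sub_distrib]
    exact Finset.sum_congr rfl fun j _ => by ring
  rw [h1]
  by_cases hik : i = k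
  · rw [hik, Function.update_self, ← kap_eq hT, hs, div_mul_cancel₀ _ (kap_ne hT k)]
    ring
  · rw [Function.update_of_ne hik, H.2 k (by omega) i, if_neg hik, mul_zero, sub_zero]
    exact vtx_spec H.1 i

end lin

section key

variable {K : Type*} [Field K] {d m : ℕ} {c : Fin (m + 1) → Fin (d + 1) → K}
  {a : Fin (m + 1) → K} {L : Type*} [Field L] (φ : K →+* L) (x : Fin (d + 1) → L)

/-- the values of the forms at the point -/
noncomputable def fx (c : Fin (m + 1) → Fin (d + 1) → K) (a : Fin (m + 1) → K)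
    (e : Fin (m + 1)) : L := ∑ j, φ (c e j) * x j - φ (a e)

/-- the point of the face given by the coordinates with `h ≤ hi k` -/
noncomputable def yh (c : Fin (m + 1) → Fin (d + 1) → K) (a : Fin (m + 1) → K)
    (T : Fin (d + 1) → Fin (m + 1)) (h : ℕ) (j : Fin (d + 1)) : L :=
  φ (vtx c a T j) + ∑ k ∈ Finset.univ.filter (fun k => h ≤ ((hi c T k : Fin (m + 1)) : ℕ)),
    fx φ x c a (T k) * φ ((cm c T)⁻¹ j k)

theorem yh_top (T : Fin (d + 1) → Fin (m + 1)) (j : Fin (d + 1)) :
    yh φ x c a T (m + 1) j = φ (vtx c a T j) := by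
  unfold yh
  rw [Finset.sum_eq_zero, add_zero]
  intro k hk
  have h1 := (Finset.mem_filter.1 hk).2
  have h2 := (hi c T k).2
  omega

theorem yh_zero {T : Fin (d + 1) → Fin (m + 1)} (hT : (cm c T).det ≠ 0) (j : Fin (d + 1)) :
    yh φ x c a T 0 j = x j := by
  unfold yh vtx
  rw [Finset.filter_true_of_mem fun k _ => Nat.zero_le _, map_sum, ← Finset.sum_add_distrib]
  have h1 : ∀ k, φ ((cm c T)⁻¹ j k * a (T k)) + fx φ x c a (T k) * φ ((cm c T)⁻¹ j k) =
      ∑ l, φ ((cm c T)⁻¹ j k * cm c T k l) * x l := by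
    intro k
    unfold fx cm
    simp only [map_mul, Matrix.of_apply, mul_assoc, ← Finset.mul_sum]
    ring
  simp only [h1]
  rw [Finset.sum_comm]
  have h2 : ∀ l, ∑ k, φ ((cm c T)⁻¹ j k * cm c T k l) * x l = (if j = l then 1 else 0) * x l := by
    intro l
    rw [← Finset.sum_mul, ← map_sum]
    have h3 := congrFun (congrFun (Matrix.nonsing_inv_mul (cm c T)
      (isUnit_iff_ne_zero.2 hT)) j) l
    rw [Matrix.mul_apply, Matrix.one_apply] at h3
    rw [h3]
    split_ifs <;> simp
  simp only [h2]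
  simp

theorem yh_succ (T : Fin (d + 1) → Fin (m + 1)) (h : ℕ) (j : Fin (d + 1)) :
    yh φ x c a T h j = yh φ x c a T (h + 1) j +
      ∑ k ∈ Finset.univ.filter (fun k => ((hi c T k : Fin (m + 1)) : ℕ) = h),
        fx φ x c a (T k) * φ ((cm c T)⁻¹ j k) := by
  unfold yh
  rw [add_assoc, ← Finset.sum_union]
  · congr 1
    refine Finset.sum_congr ?_ fun _ _ => rfl
    ext k
    simp only [Finset.mem_filter, Finset.mem_univ, true_and, Finset.mem_union]
    omega
  · rw [Finset.disjoint_filter]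
    intro k _ h1 h2
    omega

theorem ev_yh_succ (u : Fin (d + 1) → K) (β : K) (T : Fin (d + 1) → Fin (m + 1)) (h : ℕ) :
    ev φ u β (yh φ x c a T h) = ev φ u β (yh φ x c a T (h + 1)) +
      ∑ k ∈ Finset.univ.filter (fun k => ((hi c T k : Fin (m + 1)) : ℕ) = h),
        fx φ x c a (T k) * φ (∑ j, u j * (cm c T)⁻¹ j k) := by
  unfold ev
  simp only [yh_succ φ x T h, mul_add, Finset.sum_add_distrib, Finset.mul_sum, map_sum, map_mul]
  rw [Finset.sum_comm]
  have : ∀ k j, φ (u j) * (fx φ x c a (T k) * φ ((cm c T)⁻¹ j k)) =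
      fx φ x c a (T k) * (φ (u j) * φ ((cm c T)⁻¹ j k)) := fun k j => by ring
  simp only [this]
  ring

/-- the forms at the point of the face -/
theorem ev_yh (T : Fin (d + 1) → Fin (m + 1)) (h : ℕ) (e : Fin (m + 1)) :
    ev φ (c e) (-a e) (yh φ x c a T h) = φ (∑ j, c e j * vtx c a T j - a e) +
      ∑ k ∈ Finset.univ.filter (fun k => h ≤ ((hi c T k : Fin (m + 1)) : ℕ)),
        φ (al c T e k) * fx φ x c a (T k) := by
  unfold ev yh
  simp only [mul_add, Finset.sum_add_distrib, Finset.mul_sum, map_sum, map_mul, map_sub, map_neg,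
    al_def, Finset.sum_mul]
  rw [Finset.sum_comm]
  have : ∀ k j, φ (c e j) * (fx φ x c a (T k) * φ ((cm c T)⁻¹ j k)) =
      φ (c e j) * φ ((cm c T)⁻¹ j k) * fx φ x c a (T k) := fun k j => by ring
  simp only [this]
  ring

theorem ev_zero {T : Fin (d + 1) → Fin (m + 1)} (hT : (cm c T).det ≠ 0) (e : Fin (m + 1)) :
    ev φ (c e) (-a e) (yh φ x c a T 0) = fx φ x c a e := by
  unfold ev fx
  simp only [yh_zero φ x hT, map_neg]
  ring

/-- The combination of the block of the index `hi k0` is the value of its form at the point of the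
face given by the higher blocks. -/
theorem block_eq {T : Fin (d + 1) → Fin (m + 1)} (hT : (cm c T).det ≠ 0) (k0 : Fin (d + 1)) :
    fx φ x c a (hi c T k0) - ∑ k ∈ Finset.univ.filter (fun k => hi c T k = hi c T k0),
        φ (kap c T k) * fx φ x c a (T k) =
      ev φ (c (hi c T k0)) (-a (hi c T k0)) (yh φ x c a T ((hi c T k0 : ℕ) + 1)) := by
  rw [← ev_zero φ x hT (hi c T k0), ev_yh, ev_yh, add_sub_assoc]
  congr 1
  rw [sub_eq_iff_eq_add]
  have e1 : ∑ k ∈ Finset.univ.filter (fun k => hi c T k = hi c T k0),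
      φ (kap c T k) * fx φ x c a (T k) =
      ∑ k ∈ Finset.univ.filter (fun k => hi c T k = hi c T k0),
        φ (al c T (hi c T k0) k) * fx φ x c a (T k) := by
    refine Finset.sum_congr rfl fun k hk => ?_
    rw [kap_eq hT, (Finset.mem_filter.1 hk).2]
  rw [e1, ← Finset.sum_union]
  · symm
    refine Finset.sum_subset (fun k _ => Finset.mem_filter.2 ⟨Finset.mem_univ _, Nat.zero_le _⟩)
      fun k _ hk => ?_
    have h0 : al c T (hi c T k0) k = 0 := by
      by_contra h0
      have h1 : hi c T k0 ≤ hi c T k := le_hi_of_al hT h0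
      apply hk
      rcases eq_or_lt_of_le h1 with h2 | h2
      · exact Finset.mem_union_right _ (Finset.mem_filter.2 ⟨Finset.mem_univ _, h2.symm⟩)
      · exact Finset.mem_union_left _ (Finset.mem_filter.2 ⟨Finset.mem_univ _, by
          have h3 : (hi c T k0 : ℕ) < hi c T k := h2
          omega⟩)
    rw [h0, map_zero, zero_mul]
  · rw [Finset.disjoint_filter]
    intro k _ h1 h2
    rw [h2] at h1
    omega

variable {φ x}

/-- A bound at the vertices is a bound at the points of the faces. -/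
theorem bound (v : Valuation L ℤᵐ⁰) {T : Fin (d + 1) → Fin (m + 1)} (hT : (cm c T).det ≠ 0)
    (hbad : ∀ k0, v (φ (kap c T k0) * fx φ x c a (T k0)) ≤
      v (fx φ x c a (hi c T k0) - ∑ k ∈ Finset.univ.filter (fun k => hi c T k = hi c T k0),
        φ (kap c T k) * fx φ x c a (T k)))
    {B : ℤᵐ⁰} (N : ℕ) : ∀ h : ℕ, h + N = m + 1 → ∀ (u : Fin (d + 1) → K) (β : K),
      (∀ T', Reach c T h T' → v (φ (∑ j, u j * vtx c a T' j + β)) ≤ B) →
      v (ev φ u β (yh φ x c a T h)) ≤ B := by
  induction N with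
  | zero =>
    intro h hh u β hu
    have h1 : h = m + 1 := by omega
    subst h1
    have h2 := hu T (reach_self hT _)
    unfold ev
    simp only [yh_top]
    simpa only [map_add, map_sum, map_mul] using h2
  | succ N ih =>
    intro h hh u β hu
    have ih' := ih (h + 1) (by omega)
    rw [ev_yh_succ]
    have h0 : v (ev φ u β (yh φ x c a T (h + 1))) ≤ B :=
      ih' u β fun T' hT' => hu T' (hT'.mono (Nat.le_succ h))
    refine (v.map_add _ _).trans (max_le h0 ?_)
    refine Valuation.map_sum_le v fun k hk => ?_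
    have hkh : ((hi c T k : Fin (m + 1)) : ℕ) = h := (Finset.mem_filter.1 hk).2
    set ω : K := ∑ j, u j * (cm c T)⁻¹ j k with hω
    set s : L := ev φ (c (hi c T k)) (-a (hi c T k)) (yh φ x c a T (h + 1)) with hs
    have hbk := hbad k
    rw [block_eq φ x hT, hkh] at hbk
    have h1 : v (ev φ (fun j => u j - ω / kap c T k * c (hi c T k) j)
        (β + ω / kap c T k * a (hi c T k)) (yh φ x c a T (h + 1))) ≤ B := by
      refine ih' _ _ fun T' hT' => ?_
      have h3 := hu _ (reach_step hT hT' hkh)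
      have e : ∑ j, (u j - ω / kap c T k * c (hi c T k) j) * vtx c a T' j +
          (β + ω / kap c T k * a (hi c T k)) =
          ∑ j, u j * vtx c a (Function.update T' k (hi c T k)) j + β := by
        simp only [vtx_step hT hT' hkh, mul_sub, sub_mul, Finset.sum_sub_distrib]
        have e1 : ∑ j, u j * ((∑ l, c (hi c T k) l * vtx c a T' l - a (hi c T k)) / kap c T k *
            (cm c T)⁻¹ j k) = (∑ l, c (hi c T k) l * vtx c a T' l - a (hi c T k)) /
              kap c T k * ω := by
          rw [hω, Finset.mul_sum]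
          exact Finset.sum_congr rfl fun j _ => by ring
        have e2 : ∑ j, ω / kap c T k * c (hi c T k) j * vtx c a T' j =
            ω / kap c T k * ∑ l, c (hi c T k) l * vtx c a T' l := by
          rw [Finset.mul_sum]
          exact Finset.sum_congr rfl fun j _ => by ring
        rw [e1, e2]
        ring
      rw [e]
      exact h3
    have e3 : ev φ (fun j => u j - ω / kap c T k * c (hi c T k) j)
        (β + ω / kap c T k * a (hi c T k)) (yh φ x c a T (h + 1)) =
        ev φ u β (yh φ x c a T (h + 1)) - φ (ω / kap c T k) * s := by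
      rw [hs]
      unfold ev
      simp only [map_sub, map_mul, map_add, map_neg, sub_mul, Finset.sum_sub_distrib, mul_assoc,
        ← Finset.mul_sum]
      ring
    have h2 : v (φ (ω / kap c T k) * s) ≤ B := by
      have e4 : φ (ω / kap c T k) * s = ev φ u β (yh φ x c a T (h + 1)) -
          ev φ (fun j => u j - ω / kap c T k * c (hi c T k) j)
            (β + ω / kap c T k * a (hi c T k)) (yh φ x c a T (h + 1)) := by
        rw [e3]
        ring
      rw [e4]
      exact (v.map_sub _ _).trans (max_le h0 h1)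
    have e5 : fx φ x c a (T k) * φ ω =
        φ (ω / kap c T k) * (φ (kap c T k) * fx φ x c a (T k)) := by
      have h5 : φ ω = φ (ω / kap c T k) * φ (kap c T k) := by
        rw [← map_mul, div_mul_cancel₀ _ (kap_ne hT k)]
      rw [h5]
      ring
    rw [e5, map_mul]
    calc v (φ (ω / kap c T k)) * v (φ (kap c T k) * fx φ x c a (T k))
        ≤ v (φ (ω / kap c T k)) * v s := mul_le_mul' le_rfl hbk
      _ = v (φ (ω / kap c T k) * s) := (map_mul _ _ _).symm
      _ ≤ B := h2

/-- The coordinates are bounded, if no block is dominated. -/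
theorem x_le (v : Valuation L ℤᵐ⁰) {T : Fin (d + 1) → Fin (m + 1)} (hT : (cm c T).det ≠ 0)
    (hbad : ∀ k0, v (φ (kap c T k0) * fx φ x c a (T k0)) ≤
      v (fx φ x c a (hi c T k0) - ∑ k ∈ Finset.univ.filter (fun k => hi c T k = hi c T k0),
        φ (kap c T k) * fx φ x c a (T k)))
    {B : ℤᵐ⁰} (hB : ∀ T', (cm c T').det ≠ 0 → ∀ j, v (φ (vtx c a T' j)) ≤ B) (j : Fin (d + 1)) :
    v (x j) ≤ B := by
  have h := bound v hT hbad (m + 1) 0 (by omega) (Pi.single j 1) 0 (B := B) (fun T' hT' => by
    have e : ∑ l, (Pi.single j 1 : Fin (d + 1) → K) l * vtx c a T' l + 0 = vtx c a T' j := by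
      simp [Pi.single_apply]
    rw [e]
    exact hB T' hT'.1 j)
  have e : ev φ (Pi.single j 1) 0 (yh φ x c a T 0) = x j := by
    unfold ev
    simp only [yh_zero φ x hT]
    simp [Pi.single_apply, apply_ite φ]
  rwa [e] at h

/-- If no block is dominated, and the forms have the maximal value, the entries are units. -/
theorem entry_one (v : Valuation L ℤᵐ⁰) {T : Fin (d + 1) → Fin (m + 1)} (hT : (cm c T).det ≠ 0)
    (hbad : ∀ k0, v (φ (kap c T k0) * fx φ x c a (T k0)) ≤
      v (fx φ x c a (hi c T k0) - ∑ k ∈ Finset.univ.filter (fun k => hi c T k = hi c T k0),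
        φ (kap c T k) * fx φ x c a (T k)))
    {B : ℤᵐ⁰} (hB : ∀ T', (cm c T').det ≠ 0 → ∀ e, v (φ (∑ j, c e j * vtx c a T' j - a e)) ≤ B)
    (hall : ∀ e, v (fx φ x c a e) = B) (k0 : Fin (d + 1)) :
    v (φ (kap c T k0) * fx φ x c a (T k0)) = v (fx φ x c a (hi c T k0)) := by
  set h : ℕ := (hi c T k0 : ℕ) with hh
  have hhm : h + 1 + (m - h) = m + 1 := by
    have := (hi c T k0).2
    omega
  set s : L := ev φ (c (hi c T k0)) (-a (hi c T k0)) (yh φ x c a T (h + 1)) with hs
  have hbk : ∀ k, hi c T k = hi c T k0 → v (φ (kap c T k) * fx φ x c a (T k)) ≤ v s := by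
    intro k hk
    have h1 := hbad k
    rw [block_eq φ x hT] at h1
    simp only [hk] at h1
    exact h1
  -- the value of `s` is at most `B`
  have hsB : v s ≤ B := by
    refine bound v hT hbad (m - h) (h + 1) hhm _ _ fun T' hT' => ?_
    have e := hB T' hT'.1 (hi c T k0)
    rwa [sub_eq_add_neg] at e
  -- the value of `s / κ` is at most `B`
  have h2 : v (φ (kap c T k0)⁻¹ * s) ≤ B := by
    have h1 : v (ev φ (fun j => c (T k0) j - (kap c T k0)⁻¹ * c (hi c T k0) j)
        (-a (T k0) + (kap c T k0)⁻¹ * a (hi c T k0)) (yh φ x c a T (h + 1))) ≤ B := by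
      refine bound v hT hbad (m - h) (h + 1) hhm _ _ fun T' hT' => ?_
      have h3 := hB _ (reach_step hT hT' hh.symm).1 (T k0)
      have e : ∑ j, (c (T k0) j - (kap c T k0)⁻¹ * c (hi c T k0) j) * vtx c a T' j +
          (-a (T k0) + (kap c T k0)⁻¹ * a (hi c T k0)) =
          ∑ j, c (T k0) j * vtx c a (Function.update T' k0 (hi c T k0)) j - a (T k0) := by
        simp only [vtx_step hT hT' hh.symm, mul_sub, sub_mul, Finset.sum_sub_distrib]
        have e0 : ∑ j, c (T k0) j * (cm c T)⁻¹ j k0 = 1 := by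
          have := Pool.Agent.TH826.GA.al_T T hT k0 k0
          rw [if_pos rfl] at this
          exact this
        have e1 : ∑ j, c (T k0) j * ((∑ l, c (hi c T k0) l * vtx c a T' l - a (hi c T k0)) /
            kap c T k0 * (cm c T)⁻¹ j k0) =
            (∑ l, c (hi c T k0) l * vtx c a T' l - a (hi c T k0)) / kap c T k0 := by
          have e2 : ∀ j, c (T k0) j * ((∑ l, c (hi c T k0) l * vtx c a T' l - a (hi c T k0)) /
            kap c T k0 * (cm c T)⁻¹ j k0) =
            (∑ l, c (hi c T k0) l * vtx c a T' l - a (hi c T k0)) / kap c T k0 *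
              (c (T k0) j * (cm c T)⁻¹ j k0) := fun j => by ring
          simp only [e2, ← Finset.mul_sum, e0, mul_one]
        have e2 : ∑ j, (kap c T k0)⁻¹ * c (hi c T k0) j * vtx c a T' j =
            (kap c T k0)⁻¹ * ∑ l, c (hi c T k0) l * vtx c a T' l := by
          rw [Finset.mul_sum]
          exact Finset.sum_congr rfl fun j _ => by ring
        rw [e1, e2]
        ring
      rw [e]
      exact h3
    have e3 : ev φ (fun j => c (T k0) j - (kap c T k0)⁻¹ * c (hi c T k0) j)
        (-a (T k0) + (kap c T k0)⁻¹ * a (hi c T k0)) (yh φ x c a T (h + 1)) =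
        ev φ (c (T k0)) (-a (T k0)) (yh φ x c a T (h + 1)) - φ (kap c T k0)⁻¹ * s := by
      rw [hs]
      unfold ev
      simp only [map_sub, map_mul, map_add, map_neg, sub_mul, Finset.sum_sub_distrib, mul_assoc,
        ← Finset.mul_sum]
      ring
    have e4 : ev φ (c (T k0)) (-a (T k0)) (yh φ x c a T (h + 1)) = 0 := by
      rw [ev_yh, vtx_spec hT, sub_self, map_zero, zero_add]
      refine Finset.sum_eq_zero fun k hk => ?_
      have hne : k0 ≠ k := by
        rintro rfl
        have := (Finset.mem_filter.1 hk).2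
        omega
      rw [Pool.Agent.TH826.GA.al_T T hT, if_neg hne, map_zero, zero_mul]
    rw [e3, e4, zero_sub, Valuation.map_neg] at h1
    exact h1
  -- conclusion
  have hk0 : φ (kap c T k0) ≠ 0 := (map_ne_zero _).2 (kap_ne hT k0)
  have h3 : v s ≤ v (φ (kap c T k0) * fx φ x c a (T k0)) := by
    have e : s = φ (kap c T k0) * (φ (kap c T k0)⁻¹ * s) := by
      rw [map_inv₀, mul_inv_cancel_left₀ hk0]
    rw [e, map_mul, map_mul v _ (fx φ x c a (T k0)), hall]
    exact mul_le_mul' le_rfl h2
  have h4 : v (fx φ x c a (hi c T k0)) ≤ v s := by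
    have e := block_eq (a := a) φ x hT k0
    rw [← hh, ← hs, sub_eq_iff_eq_add] at e
    rw [e]
    refine (v.map_add _ _).trans (max_le le_rfl ?_)
    exact Valuation.map_sum_le v fun k hk => hbk k (Finset.mem_filter.1 hk).2
  refine le_antisymm ?_ (h4.trans h3)
  rw [hall (hi c T k0)]
  exact (hbk k0 rfl).trans hsB

end key

end Pool.Agent.Y797.IV
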